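import Pool.Agent.H66.FA.T

/-!
# The inverse matrix is free of divergence (DIV)
-/

set_option autoImplicit false

open Matrix

open Pool.Agent.H66.FA Pool.Agent.H63.Fins MeasureTheory Filter Topology

namespace Pool.Agent.H13.FAB

theorem hasDerivAt_line {n : ℕ} {f : V n → ℝ} {y : V n} (v : V n)
    (hf : DifferentiableAt ℝ f y) :
    HasDerivAt (fun t : ℝ => f (y + t • v)) (fderiv ℝ f y v) 0 := by
  have h1 : HasDerivAt (fun t : ℝ => y + t • v) v 0 := by
    have h2 := ((hasDerivAt_id (0 : ℝ)).smul_const v).const_add y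
    rwa [one_smul] at h2
  have h3 : HasFDerivAt f (fderiv ℝ f y) (y + (0 : ℝ) • v) := by
    rw [zero_smul, add_zero]
    exact hf.hasFDerivAt
  exact h3.comp_hasDerivAt (0 : ℝ) h1

theorem pf_DIV (h2 : T_REG) (h3 : T_INV) (h4 : T_SYM) (h5 : T_TRC) : T_DIV := by
  intro n L d hL hd y j hy
  obtain ⟨-, -, -, hd2, -, hgi, hreg⟩ := h2 n L hL
  have hopen : {y : V n | y ≠ 0} ∈ 𝓝 y := isOpen_ne.mem_nhds hy
  have hdg : ∀ a b, DifferentiableAt ℝ (fun z => gm L z a b) y := fun a b =>
    ((hd2 (ee a) (ee b)).contDiffAt hopen).differentiableAt (by simp)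
  have hdi : ∀ i, DifferentiableAt ℝ (gi L i j) y := fun i =>
    ((hgi i j).contDiffAt hopen).differentiableAt (by simp)
  -- the matrix is symmetric
  have hsym : ∀ a b (w : V n), fderiv ℝ (fun z => gm L z a b) y w =
      fderiv ℝ (fun z => gm L z b a) y w := by
    intro a b w
    have h6 : (fun z => gm L z a b) =ᶠ[𝓝 y] fun z => gm L z b a := by
      filter_upwards [hopen] with z hz
      have h7 := (hreg z hz).2.2.1.isHermitian
      have h8 := congrFun (congrFun h7 b) a
      rw [Matrix.conjTranspose_apply] at h8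
      exact h8
    rw [h6.fderiv_eq]
  have hswap : ∀ a b c, fderiv ℝ (fun z => gm L z a b) y (ee c) =
      fderiv ℝ (fun z => gm L z c b) y (ee a) := fun a b c => h4 n L hL y hy (ee a) (ee b) (ee c)
  have hD : ∀ a b i, fderiv ℝ (fun z => gm L z a b) y (ee i) =
      fderiv ℝ (fun z => gm L z i a) y (ee b) := by
    intro a b i
    rw [hswap a b i, hsym i b, hswap b i a, hsym a i]
  have key : ∀ i, fderiv ℝ (gi L i j) y (ee i) =
      -∑ b, (∑ a, gi L i a y * fderiv ℝ (fun z => gm L z i a) y (ee b)) * gi L b j y := by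
    intro i
    have h6 := h3 n (fun t => gm L (y + t • ee i))
      (fun a b => fderiv ℝ (fun z => gm L z a b) y (ee i)) 0
      (fun a b => hasDerivAt_line (ee i) (hdg a b)) (by
        rw [zero_smul, add_zero]
        exact (hreg y hy).2.2.2.1.ne') i j
    have h7 := hasDerivAt_line (ee i) (hdi i)
    rw [h7.unique h6, zero_smul, add_zero]
    congr 1
    rw [Matrix.mul_apply]
    refine Finset.sum_congr rfl fun b _ => ?_
    rw [Matrix.mul_apply]
    congr 1
    refine Finset.sum_congr rfl fun a _ => ?_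
    rw [hD a b i]
    rfl
  rw [Finset.sum_congr rfl fun i _ => key i, Finset.sum_neg_distrib, Finset.sum_comm, neg_eq_zero]
  refine Finset.sum_eq_zero fun b _ => ?_
  rw [← Finset.sum_mul]
  have h8 := h5 n L d hL hd y (ee b) hy
  rw [h8, zero_mul]

end Pool.Agent.H13.FAB
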